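import Pool.Agent.T9h88.IO.Spec

/-!
# Derivations with bounds for the number of lines and the lengths of the lines
-/

set_option autoImplicit false

namespace Pool.Agent.T9h21.IO

open Pool.Agent.TH672 (Fm Str upd num digits varStr LogK ReplK Sw Pv)
open Pool.Agent.TH672.Form (ren)
open Pool.Agent.TH636.BC
open Pool.Agent.T9h6.BC
open Pool.Agent.T9h88.IO (pb)
open Pool.Agent.TH838.J1549 (step_mono isProof_append)
open Pool.Agent.TH690.J100 (subst_of_not_free freeFor_of_bd)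

/-- a derivation with at most `L` lines of length at most `B` -/
def DB (Γ : List Fml) (B L : ℕ) (φ : Fml) : Prop :=
  ∃ π, IsProof Γ (φ :: π) ∧ (φ :: π).length ≤ L ∧ ∀ ψ ∈ φ :: π, sz ψ ≤ B

variable {Γ : List Fml} {B L : ℕ} {φ ψ : Fml}

theorem DB.le (h : DB Γ B L φ) : sz φ ≤ B := by
  obtain ⟨π, _, _, h⟩ := h
  exact h φ (List.mem_cons_self ..)

theorem DB.mono {B' L' : ℕ} (hB : B ≤ B') (hL : L ≤ L') (h : DB Γ B L φ) : DB Γ B' L' φ := by
  obtain ⟨π, h1, h2, h3⟩ := h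
  exact ⟨π, h1, h2.trans hL, fun ψ hψ => (h3 ψ hψ).trans hB⟩

theorem DB.ax (h : φ ∈ Γ) (g : sz φ ≤ B) : DB Γ B 1 φ :=
  ⟨[], ⟨trivial, .inl h⟩, by simp, by simpa using g⟩

theorem DB.log (h : LogK φ) (g : sz φ ≤ B) : DB Γ B 1 φ :=
  ⟨[], ⟨trivial, .inr (.inl h)⟩, by simp, by simpa using g⟩

theorem DB.mp {L1 L2 : ℕ} (h1 : DB Γ B L1 (.imp φ ψ)) (h2 : DB Γ B L2 φ) :
    DB Γ B (L1 + L2 + 1) ψ := by
  have g : sz ψ ≤ B := by have := h1.le; simp at this; omega
  obtain ⟨π1, a1, a2, a3⟩ := h1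
  obtain ⟨π2, b1, b2, b3⟩ := h2
  refine ⟨(φ.imp ψ :: π1) ++ (φ :: π2), ⟨isProof_append a1 b1,
      .inr (.inr (.inl ⟨φ, by simp, by simp⟩))⟩, ?_, ?_⟩
  · simp only [List.length_cons, List.length_append] at a2 b2 ⊢; omega
  · intro χ hχ
    rcases List.mem_cons.1 hχ with rfl | hχ
    · exact g
    · rcases List.mem_append.1 hχ with hχ | hχ
      · exact a3 χ hχ
      · exact b3 χ hχ

theorem DB.gen (x : ℕ) (h : DB Γ B L φ) (hs : sz (.all x φ) ≤ B) : DB Γ B (L + 1) (.all x φ) := by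
  obtain ⟨π, a1, a2, a3⟩ := h
  refine ⟨φ :: π, ⟨a1, .inr (.inr (.inr ⟨φ, by simp, x, rfl⟩))⟩, ?_, ?_⟩
  · simp only [List.length_cons] at a2 ⊢; omega
  · intro χ hχ
    rcases List.mem_cons.1 hχ with rfl | hχ
    · exact hs
    · exact a3 χ hχ

theorem DB.of_dv {k : ℕ} (h : Dv Γ k B L φ) : DB Γ B L φ := by
  obtain ⟨π, h1, h2, h3⟩ := h
  exact ⟨π, h1, h2, fun ψ hψ => (h3 ψ hψ).sz⟩

theorem len_strs_cons (φ : Fml) (π : List Fml) :
    (strs (φ :: π)).length = sz φ + (strs π).length := by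
  simp [strs, sz]

theorem sz_le_strs {φ : Fml} : ∀ {π : List Fml}, φ ∈ π → sz φ ≤ (strs π).length
  | [], h => by simp at h
  | ψ :: π, h => by
    rw [len_strs_cons]
    rcases List.mem_cons.1 h with rfl | h
    · omega
    · have := sz_le_strs h; omega

theorem length_le_strs : ∀ π : List Fml, π.length ≤ (strs π).length
  | [] => by simp
  | ψ :: π => by
    have := length_le_strs π
    have := sz_pos ψ
    rw [len_strs_cons, List.length_cons]
    omega

theorem strs_le {B : ℕ} : ∀ {π : List Fml}, (∀ ψ ∈ π, sz ψ ≤ B) →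
    (strs π).length ≤ π.length * B
  | [], _ => by simp [strs]
  | ψ :: π, h => by
    have h1 := strs_le (π := π) fun φ hφ => h φ (List.mem_cons_of_mem _ hφ)
    have h2 := h ψ (List.mem_cons_self ..)
    rw [len_strs_cons, List.length_cons]
    nlinarith

theorem DB.of_proves {m : ℕ} (h : Proves Γ m φ) : DB Γ m m φ := by
  obtain ⟨π, h1, h2⟩ := h
  exact ⟨π, h1, (length_le_strs _).trans h2, fun ψ hψ => (sz_le_strs hψ).trans h2⟩

theorem DB.proves (h : DB Γ B L φ) : Proves Γ (L * B) φ := by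
  obtain ⟨π, h1, h2, h3⟩ := h
  exact ⟨π, h1, (strs_le h3).trans (Nat.mul_le_mul_right _ h2)⟩

theorem DB.proves' {C x : ℕ} (h : DB Γ B L φ) (hC : L * B ≤ pb C x) : Proves Γ (pb C x) φ := by
  obtain ⟨π, h1, h2⟩ := h.proves
  exact ⟨π, h1, h2.trans hC⟩

/-- tautologies -/
theorem taut (θ : Fml) (h : ∀ (S : Str ℕ) (v : ℕ → S.M), Fm.Sat S θ v) :
    ∃ C, ∀ (Γ : List Fml) (M B : ℕ) (l : List Fml), (∀ a ∈ l, sz a ≤ M) → 4 ≤ M →
      C * (M + 1) ≤ B → DB Γ B C ((TD.prp (fun i => l.getD i .bot) M).tr θ) := by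
  obtain ⟨C, _, hC⟩ := prp_rule θ h
  refine ⟨C, fun Γ M B l h1 h2 h3 => ?_⟩
  have hk : ∃ k, ∀ a ∈ l, Both k a := by
    clear h1
    induction l with
    | nil => exact ⟨0, by simp⟩
    | cons a l ih =>
      obtain ⟨k, hk⟩ := ih
      refine ⟨max k (qd a), fun b hb => ?_⟩
      rcases List.mem_cons.1 hb with rfl | hb
      · exact (both_qd _).mono (le_max_right _ _)
      · exact (hk b hb).mono (le_max_left _ _)
  obtain ⟨k, hk⟩ := hk
  refine (DB.of_dv (hC Γ k M (fun i => l.getD i .bot) ?_ ?_)).mono h3 le_rfl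
  · intro i
    by_cases hi : i < l.length
    · rw [List.getD_eq_getElem _ _ hi]
      exact hk _ (List.getElem_mem hi)
    · rw [List.getD_eq_default _ _ (by omega)]
      exact Both.bot
  · intro i
    by_cases hi : i < l.length
    · rw [List.getD_eq_getElem _ _ hi]
      exact h1 _ (List.getElem_mem hi)
    · rw [List.getD_eq_default _ _ (by omega)]
      simpa using h2

/-- `y` is free for a variable that does not occur free -/
theorem ff_nf {x y : ℕ} : ∀ {φ : Fml}, ¬ φ.Free x → φ.FreeFor y x := by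
  intro φ
  induction φ with
  | imp a b iha ihb => exact fun h => ⟨iha fun e => h (.inl e), ihb fun e => h (.inr e)⟩
  | all u a iha =>
    intro h
    by_cases e : u = x
    · exact .inl e
    · exact .inr (.inl fun e' => h ⟨fun e'' => e e''.symm, e'⟩)
  | _ => exact fun _ => trivial

end Pool.Agent.T9h21.IO
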