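import Pool.Agent.T9h21.IO.Rules

/-!
# Use of formulas with numerals
-/

set_option autoImplicit false

namespace Pool.Agent.T9h21.IO

open Pool.Agent.TH672 (Fm Str upd num digits varStr LogK ReplK Sw Pv)
open Pool.Agent.TH672.Form (ren)
open Pool.Agent.TH636.BC
open Pool.Agent.T9h6.BC
open Pool.Agent.T9h88.IO (pb SInstE SInstI)
open Pool.Agent.TH690.J100 (subst_of_not_free freeFor_of_bd)

/-- the formula after some of the quantifiers of `inst x n φ` -/
def fk (x : ℕ) (φ : Fml) (k : ℕ) : Fml := blk^[k] (.all x (.imp (.eq x 0) φ))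

theorem fk_zero (x : ℕ) (φ : Fml) : fk x φ 0 = .all x (.imp (.eq x 0) φ) := rfl

theorem fk_succ (x : ℕ) (φ : Fml) (k : ℕ) : fk x φ (k + 1) =
    .all 1 (.imp (.succ 0 1) (.all 0 (.imp (.eq 0 1) (fk x φ k)))) := by
  rw [fk, Function.iterate_succ_apply']; rfl

theorem sz_fk (x : ℕ) (φ : Fml) : ∀ k, sz (fk x φ k) = 33 * k + (x + 15 + x + sz φ)
  | 0 => by rw [fk_zero]; simp; omega
  | k + 1 => by rw [fk_succ]; simp [sz_fk x φ k]; omega

theorem nf_fk1 {x : ℕ} {φ : Fml} (hx : x ≠ 1) (h : ¬ φ.Free 1) : ∀ k, ¬ (fk x φ k).Free 1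
  | 0 => by
    rw [fk_zero]
    rintro ⟨_, (h2 | h2) | h2⟩
    · exact hx h2.symm
    · omega
    · exact h h2
  | k + 1 => by rw [fk_succ]; simp [Fm.Free]

theorem ff_fk0 {x y : ℕ} {φ : Fml} (hy : y ≠ 0 ∧ y ≠ 1 ∧ y ≠ x) (h : ¬ φ.Free 0) :
    ∀ k, (fk x φ k).FreeFor y 0
  | 0 => by
    rw [fk_zero]
    exact .inr (.inr ⟨fun e => hy.2.2 e.symm, trivial, ff_nf h⟩)
  | k + 1 => by
    rw [fk_succ]
    exact .inr (.inr ⟨fun e => hy.2.1 e.symm, trivial, .inl rfl⟩)

theorem sub_fk0 {x y : ℕ} {φ : Fml} (hx : x ≠ 0) (h : ¬ φ.Free 0) :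
    (fk x φ 0).subst 0 y = .all x (.imp (.eq x y) φ) := by
  rw [fk_zero]
  simp [Fm.subst, ren, hx, subst_of_not_free h]

theorem sub_fk1 {x y : ℕ} {φ : Fml} (k : ℕ) : (fk x φ (k + 1)).subst 0 y =
    .all 1 (.imp (.succ y 1) (.all 0 (.imp (.eq 0 1) (fk x φ k)))) := by
  rw [fk_succ]
  simp [Fm.subst, ren]

theorem sz_sub {x y : ℕ} {φ : Fml} (hx : x ≠ 0) (h : ¬ φ.Free 0) :
    ∀ k, sz ((fk x φ k).subst 0 y) = 33 * k + (x + 15 + x + sz φ) + y
  | 0 => by rw [sub_fk0 hx h]; simp; omega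
  | k + 1 => by rw [sub_fk1]; simp [sz_fk x φ k]; omega

theorem bnd (K n m : ℕ) : ((n + 1) * (m + 3 * K) + m + 3 * K) *
    (K * (33 * n + 4 * m + 100 + 1)) ≤ pb (2 * K + 20) (m + n) := by
  unfold pb
  obtain ⟨s, hs⟩ : ∃ s, s = m + n + 2 := ⟨_, rfl⟩
  rw [← hs]
  have h2 : 2 ≤ s := by omega
  have hK : K ≤ s ^ K := (Nat.lt_two_pow_self).le.trans (Nat.pow_le_pow_left h2 K)
  have e1 : (n + 1) * (m + 3 * K) + m + 3 * K ≤ 4 * s ^ K * s ^ 2 := by
    have h3 : m + 3 * K ≤ 4 * s ^ K * s := by nlinarith [Nat.one_le_pow K s (by omega)]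
    have h4 : (n + 1) * (m + 3 * K) + m + 3 * K = (n + 2) * (m + 3 * K) := by ring
    rw [h4]
    calc (n + 2) * (m + 3 * K) ≤ s * (4 * s ^ K * s) := Nat.mul_le_mul (by omega) h3
      _ = 4 * s ^ K * s ^ 2 := by ring
  have e2 : K * (33 * n + 4 * m + 100 + 1) ≤ s ^ K * (128 * s) :=
    Nat.mul_le_mul hK (by omega)
  have e3 : (512 : ℕ) ≤ s ^ 9 := by
    calc (512 : ℕ) = 2 ^ 9 := by norm_num
      _ ≤ s ^ 9 := Nat.pow_le_pow_left h2 9
  calc ((n + 1) * (m + 3 * K) + m + 3 * K) * (K * (33 * n + 4 * m + 100 + 1))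
      ≤ (4 * s ^ K * s ^ 2) * (s ^ K * (128 * s)) := Nat.mul_le_mul e1 e2
    _ = 512 * (s ^ (2 * K) * s ^ 3) := by ring
    _ ≤ s ^ 9 * (s ^ (2 * K) * s ^ 3) := Nat.mul_le_mul_right _ e3
    _ = s ^ (2 * K + 12) := by ring
    _ ≤ s ^ (2 * K + 20) := Nat.pow_le_pow_right (by omega) (by omega)

theorem instE : SInstE := by
  obtain ⟨CA, hA⟩ := rA
  obtain ⟨CB, hB⟩ := rB
  obtain ⟨CC, hC⟩ := rC
  obtain ⟨CD, hD⟩ := rD
  obtain ⟨CE, hE⟩ := rE
  obtain ⟨CF, hF⟩ := rE'
  obtain ⟨CG, hG⟩ := rG2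
  obtain ⟨K, hK⟩ : ∃ K, K = CA + CB + CC + CD + CE + CF + CG + 10 := ⟨_, rfl⟩
  refine ⟨2 * K + 20, fun Γ χ φ ψ w x n m hx0 hx1 hφ0 hφ1 hχ0 hχ1 hχx hψ0 hψ1 hψx hw hz hs hp => ?_⟩
  -- bounds
  have hp' := (DB.of_proves hp)
  have b0 := hp'.le
  simp only [sz_imp, sz_eq] at b0
  have hwm : ∀ i ≤ n, w i ≤ m := by
    intro i hi
    rcases Nat.lt_or_ge i n with h | h
    · have := (DB.of_proves (hs i h)).le
      simp only [sz_imp, sz_succ] at this
      omega
    · have : i = n := by omega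
      subst this
      omega
  obtain ⟨M, hM⟩ : ∃ M, M = 33 * n + 4 * m + 100 := ⟨_, rfl⟩
  obtain ⟨B, hBB⟩ : ∃ B, B = K * (M + 1) := ⟨_, rfl⟩
  have hKB : ∀ c, c ≤ K → c * (M + 1) ≤ B := fun c hc => by
    rw [hBB]; exact Nat.mul_le_mul_right _ hc
  have hmB : m ≤ B := by have := hKB 1 (by omega); omega
  have h10 := hKB 10 (by omega)
  have Jd : inst x n φ = .all 0 (.imp (.zero 0) (fk x φ n)) := rfl
  have szJ : sz (inst x n φ) ≤ M := by
    rw [Jd]; simp [sz_fk]; omega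
  have szk : ∀ k ≤ n, sz (fk x φ k) ≤ 33 * n + 3 * m + 15 := fun k hk => by
    rw [sz_fk]; omega
  have szs : ∀ k ≤ n, ∀ y ≤ m, sz ((fk x φ k).subst 0 y) ≤ 33 * n + 4 * m + 15 := fun k hk y hy => by
    rw [sz_sub hx0 hφ0]; omega
  -- the chain
  have key : ∀ j k, j + k = n → DB Γ B ((j + 1) * (m + 3 * K)) (χ.imp ((inst x n φ).imp
      ((fk x φ k).subst 0 (w j)))) := by
    intro j
    induction j with
    | zero =>
      intro k hk
      have hk : k = n := by omega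
      subst hk
      have w0 := hw 0 (by omega)
      have w0m := hwm 0 (by omega)
      have e1 : DB Γ B 1 ((inst x k φ).imp (.imp (.zero (w 0)) ((fk x φ k).subst 0 (w 0)))) := by
        refine .log (LogK.inst 0 (w 0) (.imp (.zero 0) (fk x φ k)) ⟨trivial, ff_fk0 w0 hφ0 k⟩) ?_
        have := szs k le_rfl (w 0) w0m
        simp only [sz_imp, sz_zero]
        omega
      have e2 := hB Γ M B 1 m χ (inst x k φ) (.zero (w 0)) ((fk x φ k).subst 0 (w 0))
        (by omega) szJ (by simp; omega) (by have := szs k le_rfl (w 0) w0m; omega)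
        (hKB _ (by omega)) e1 ((DB.of_proves hz).mono hmB le_rfl)
      exact e2.mono le_rfl (by omega)
    | succ j ih =>
      intro k hk
      have ih := ih (k + 1) (by omega)
      have wj := hw j (by omega)
      have wj' := hw (j + 1) (by omega)
      have wjm := hwm j (by omega)
      have wjm' := hwm (j + 1) (by omega)
      have s1 := szs (k + 1) (by omega) (w j) wjm
      have s2 := szs k (by omega) (w (j + 1)) wjm'
      have s3 := szk k (by omega)
      -- the first instance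
      have e1 : DB Γ B 1 (((fk x φ (k + 1)).subst 0 (w j)).imp (.imp (.succ (w j) (w (j + 1)))
          (.all 0 (.imp (.eq 0 (w (j + 1))) (fk x φ k))))) := by
        have h := LogK.inst 1 (w (j + 1)) (.imp (.succ (w j) 1) (.all 0 (.imp (.eq 0 1) (fk x φ k))))
          ⟨trivial, .inr (.inr ⟨fun e => wj'.1 e.symm, trivial, ff_nf (nf_fk1 hx1 hφ1 k)⟩)⟩
        have e : (Fm.imp (.succ (w j) 1) (.all 0 (.imp (.eq 0 1) (fk x φ k)))).subst 1 (w (j + 1))
            = .imp (.succ (w j) (w (j + 1))) (.all 0 (.imp (.eq 0 (w (j + 1))) (fk x φ k))) := by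
          simp [Fm.subst, ren, wj.2.1, subst_of_not_free (nf_fk1 hx1 hφ1 k)]
        rw [e] at h
        rw [sub_fk1]
        refine .log h ?_
        simp only [sz_imp, sz_all, sz_succ, sz_eq]
        omega
      have e2 := hB Γ M B 1 m χ _ _ _ (by omega) (by omega) (by simp; omega)
        (by simp; omega) (hKB _ (by omega)) e1
        ((DB.of_proves (hs j (by omega))).mono hmB le_rfl)
      -- the second instance
      have e3 : DB Γ B 1 ((Fm.all 0 (.imp (.eq 0 (w (j + 1))) (fk x φ k))).imp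
          (.imp (.eq (w (j + 1)) (w (j + 1))) ((fk x φ k).subst 0 (w (j + 1))))) := by
        have h := LogK.inst 0 (w (j + 1)) (.imp (.eq 0 (w (j + 1))) (fk x φ k))
          ⟨trivial, ff_fk0 wj' hφ0 k⟩
        have e : (Fm.imp (.eq 0 (w (j + 1))) (fk x φ k)).subst 0 (w (j + 1))
            = .imp (.eq (w (j + 1)) (w (j + 1))) ((fk x φ k).subst 0 (w (j + 1))) := by
          simp [Fm.subst, ren]
        rw [e] at h
        refine .log h ?_
        simp only [sz_imp, sz_all, sz_eq]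
        omega
      have e4 : DB Γ B 1 (.eq (w (j + 1)) (w (j + 1))) := .log (.refl _) (by simp; omega)
      have e5 := hC Γ M B 1 1 χ _ _ _ (by omega) (by simp; omega) (by simp; omega) (by omega)
        (hKB _ (by omega)) e3 e4
      have e6 := hA Γ M B _ _ χ _ _ _ (by omega) (by omega) (by simp; omega) (by omega)
        (hKB _ (by omega)) e2 e5
      have e7 := hA Γ M B _ _ χ _ _ _ (by omega) szJ (by omega) (by omega)
        (hKB _ (by omega)) ih e6
      refine e7.mono le_rfl ?_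
      have : (j + 1 + 1) * (m + 3 * K) = (j + 1) * (m + 3 * K) + (m + 3 * K) := by ring
      rw [this]
      omega
  -- the end
  have k0 := key n 0 (by omega)
  rw [sub_fk0 hx0 hφ0] at k0
  have wn := hw n le_rfl
  have wnm := hwm n le_rfl
  have f1 : DB Γ B 1 ((Fm.all x (.imp (.eq x (w n)) φ)).imp (.imp (.eq x (w n)) φ)) := by
    have h := LogK.inst x x (.imp (.eq x (w n)) φ) (freeFor_self _)
    rw [subst_self] at h
    refine .log h ?_
    simp only [sz_imp, sz_all, sz_eq]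
    omega
  have f2 := hF Γ M B _ _ χ _ _ _ (by omega) szJ (by simp; omega) (by simp; omega)
    (hKB _ (by omega)) k0 f1
  have f3 := hD Γ M B _ _ χ _ _ _ _ (by omega) szJ (by simp; omega) (by omega) (by omega)
    (hKB _ (by omega)) f2 (hp'.mono hmB le_rfl)
  have hJx : ¬ (inst x n φ).Free x := by
    intro h
    have h := Pool.Agent.TH838.J1549.free_inst h
    tauto
  have f4 := hG Γ M B _ x χ _ _ (by omega) szJ (by simp; omega) (by omega)
    (hKB _ (by omega)) hχx hJx f3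
  have f5 : DB Γ B 1 ((Fm.all x (.imp (.eq x (w n)) ψ)).imp (.imp (.eq (w n) (w n)) ψ)) := by
    have h := LogK.inst x (w n) (.imp (.eq x (w n)) ψ) ⟨trivial, ff_nf hψx⟩
    have e : (Fm.imp (.eq x (w n)) ψ).subst x (w n) = .imp (.eq (w n) (w n)) ψ := by
      simp [Fm.subst, ren, subst_of_not_free hψx]
    rw [e] at h
    refine .log h ?_
    simp only [sz_imp, sz_all, sz_eq]
    omega
  have f6 := hE Γ M B _ _ _ χ _ _ _ _ (by omega) szJ (by simp; omega) (by simp; omega)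
    (by omega) (hKB _ (by omega)) f4 f5 (.log (.refl (w n)) (by simp; omega) : DB Γ B 1 _)
  refine f6.proves' ?_
  have hL : (n + 1) * (m + 3 * K) + 1 + CF + m + CD + CG + 1 + 1 + CE ≤
      (n + 1) * (m + 3 * K) + m + 3 * K := by omega
  refine (Nat.mul_le_mul_right _ hL).trans ?_
  rw [hBB, hM]
  exact bnd K n m

end Pool.Agent.T9h21.IO
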