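import Pool.Agent.T9h21.IO.InstE

/-!
# Proofs of formulas with numerals
-/

set_option autoImplicit false

namespace Pool.Agent.T9h21.IO

open Pool.Agent.TH672 (Fm Str upd num digits varStr LogK ReplK Sw Pv)
open Pool.Agent.TH672.Form (ren)
open Pool.Agent.TH636.BC
open Pool.Agent.T9h6.BC
open Pool.Agent.T9h88.IO (pb SInstE SInstI)
open Pool.Agent.TH690.J100 (subst_of_not_free freeFor_of_bd)

/-- the removal of a quantifier -/
theorem DB.un {Γ : List Fml} {B L : ℕ} {φ : Fml} (x : ℕ) (h : DB Γ B L (.all x φ))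
    (hs : 2 * sz φ + x + 9 ≤ B) : DB Γ B (L + 2) φ := by
  have h1 : LogK (Fm.imp (.all x φ) (φ.subst x x)) := LogK.inst x x φ (freeFor_self _)
  rw [subst_self] at h1
  exact ((DB.log h1 (by simp; omega)).mp h).mono le_rfl (by omega)

/-- the successor is unique -/
def Fs (a b c : ℕ) : Fml := .imp (.succ a b) (.imp (.succ a c) (.eq b c))

/-- zero is unique -/
def Gz (a b : ℕ) : Fml := .imp (.zero a) (.imp (.zero b) (.eq a b))

theorem sub_Fs (x y a b c : ℕ) : (Fs a b c).subst x y = Fs (ren x y a) (ren x y b) (ren x y c) :=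
  rfl

theorem sub_Gz (x y a b : ℕ) : (Gz a b).subst x y = Gz (ren x y a) (ren x y b) := rfl

theorem sz_Fs (a b c : ℕ) : sz (Fs a b c) = 26 + 2 * a + 2 * b + 2 * c := by
  simp [Fs]; omega

theorem sz_Gz (a b : ℕ) : sz (Gz a b) = 24 + 2 * a + 2 * b := by
  simp [Gz]; omega

theorem rn_Fs {Γ : List Fml} {B L a b c : ℕ} (x y a' b' c' : ℕ) (h : DB Γ B L (Fs a b c))
    (ha : ren x y a = a') (hb : ren x y b = b') (hc : ren x y c = c')
    (hs : 100 + x + 2 * a + 2 * b + 2 * c + 2 * a' + 2 * b' + 2 * c' ≤ B) :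
    DB Γ B (L + 3) (Fs a' b' c') := by
  have := h.rn x y ⟨trivial, trivial, trivial⟩ (by
    rw [sub_Fs, ha, hb, hc, sz_imp, sz_all, sz_Fs, sz_Fs]; omega)
  rwa [sub_Fs, ha, hb, hc] at this

theorem rn_Gz {Γ : List Fml} {B L a b : ℕ} (x y a' b' : ℕ) (h : DB Γ B L (Gz a b))
    (ha : ren x y a = a') (hb : ren x y b = b')
    (hs : 100 + x + 2 * a + 2 * b + 2 * a' + 2 * b' ≤ B) :
    DB Γ B (L + 3) (Gz a' b') := by
  have := h.rn x y ⟨trivial, trivial, trivial⟩ (by
    rw [sub_Gz, ha, hb, sz_imp, sz_all, sz_Gz, sz_Gz]; omega)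
  rwa [sub_Gz, ha, hb] at this

theorem prove_Fs {Γ : List Fml} (hΓ : ∀ ψ ∈ robinson, ψ ∈ Γ) {B a b c : ℕ}
    (hB : 1000 + 100 * (a + b + c) ≤ B) : DB Γ B 30 (Fs a b c) := by
  have h0 : DB Γ B 1 (.all 0 (.all 1 (.all 2 (Fs 0 1 2)))) :=
    .ax (hΓ _ (by simp [robinson, Fs])) (by simp [Fs]; omega)
  have h1 := h0.un 0 (by simp [Fs]; omega)
  have h2 := h1.un 1 (by simp [Fs]; omega)
  have h3 := h2.un 2 (by simp [Fs]; omega)
  obtain ⟨p, hp⟩ : ∃ p, p = a + b + c + 3 := ⟨_, rfl⟩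
  have h4 := rn_Fs 2 (p + 2) 0 1 (p + 2) h3 (by simp [ren]) (by simp [ren]) (by simp [ren])
    (by omega)
  have h5 := rn_Fs 1 (p + 1) 0 (p + 1) (p + 2) h4 (by simp [ren]) (by simp [ren])
    (by unfold ren; split_ifs <;> omega) (by omega)
  have h6 := rn_Fs 0 p p (p + 1) (p + 2) h5 (by simp [ren]) (by simp [ren]) (by simp [ren])
    (by omega)
  have h7 := rn_Fs (p + 2) c p (p + 1) c h6 (by unfold ren; split_ifs <;> omega)
    (by unfold ren; split_ifs <;> omega) (by simp [ren]) (by omega)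
  have h8 := rn_Fs (p + 1) b p b c h7 (by unfold ren; split_ifs <;> omega)
    (by simp [ren]) (by unfold ren; split_ifs <;> omega) (by omega)
  have h9 := rn_Fs p a a b c h8 (by simp [ren]) (by unfold ren; split_ifs <;> omega)
    (by unfold ren; split_ifs <;> omega) (by omega)
  exact h9.mono le_rfl (by omega)

theorem prove_Gz {Γ : List Fml} (hΓ : ∀ ψ ∈ robinson, ψ ∈ Γ) {B a b : ℕ}
    (hB : 1000 + 100 * (a + b) ≤ B) : DB Γ B 30 (Gz a b) := by
  have h0 : DB Γ B 1 (.all 0 (.all 1 (Gz 0 1))) :=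
    .ax (hΓ _ (by simp [robinson, Gz])) (by simp [Gz]; omega)
  have h1 := h0.un 0 (by simp [Gz]; omega)
  have h2 := h1.un 1 (by simp [Gz]; omega)
  obtain ⟨p, hp⟩ : ∃ p, p = a + b + 2 := ⟨_, rfl⟩
  have h5 := rn_Gz 1 (p + 1) 0 (p + 1) h2 (by simp [ren]) (by simp [ren]) (by omega)
  have h6 := rn_Gz 0 p p (p + 1) h5 (by simp [ren]) (by simp [ren]) (by omega)
  have h8 := rn_Gz (p + 1) b p b h6 (by unfold ren; split_ifs <;> omega)
    (by simp [ren]) (by omega)
  have h9 := rn_Gz p a a b h8 (by simp [ren]) (by unfold ren; split_ifs <;> omega) (by omega)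
  exact h9.mono le_rfl (by omega)

theorem instI : SInstI := by
  obtain ⟨C1, h1⟩ := rF1
  obtain ⟨C3, h3⟩ := rF3
  obtain ⟨C4, h4⟩ := rF4
  obtain ⟨C2, hG2⟩ := rG2
  obtain ⟨C5, hG3⟩ := rG3
  obtain ⟨K, hK⟩ : ∃ K, K = C1 + C2 + C3 + C4 + 2 * C5 + 1000 := ⟨_, rfl⟩
  refine ⟨2 * K + 20, fun Γ χ φ ψ w x n m hΓ hx0 hx1 hφ0 hφ1 hχ0 hχ1 hχx hψ0 hψ1 hψx hw hz hs
    hp => ?_⟩
  -- bounds
  have hp' := (DB.of_proves hp)
  have b0 := hp'.le
  simp only [sz_imp, sz_eq] at b0
  have hwm : ∀ i ≤ n, w i ≤ m := by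
    intro i hi
    rcases Nat.lt_or_ge i n with h | h
    · have := (DB.of_proves (hs i h)).le
      simp only [sz_imp, sz_succ] at this
      omega
    · have : i = n := by omega
      subst this
      omega
  obtain ⟨M, hM⟩ : ∃ M, M = 33 * n + 4 * m + 100 := ⟨_, rfl⟩
  obtain ⟨B, hBB⟩ : ∃ B, B = K * (M + 1) := ⟨_, rfl⟩
  have hKB : ∀ c, c ≤ K → c * (M + 1) ≤ B := fun c hc => by
    rw [hBB]; exact Nat.mul_le_mul_right _ hc
  have hmB : m ≤ B := by have := hKB 1 (by omega); omega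
  have h10 := hKB 1000 (by omega)
  have szk : ∀ k ≤ n, sz (fk x φ k) ≤ 33 * n + 3 * m + 15 := fun k hk => by
    rw [sz_fk]; omega
  -- the chain
  have key : ∀ j k, j + k = n → DB Γ B ((j + 1) * (m + 3 * K)) (χ.imp ((Fm.eq 0 (w k)).imp
      (ψ.imp (fk x φ j)))) := by
    intro j
    induction j with
    | zero =>
      intro k hk
      have hk : k = n := by omega
      subst hk
      have wn := hw k le_rfl
      have wnm := hwm k le_rfl
      have e1 : DB Γ B 1 ((Fm.eq 0 (w k)).imp ((Fm.eq x 0).imp (.eq x (w k)))) :=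
        .log (.repl _ _ _ _ (.eq (.inl rfl) (.inr ⟨rfl, rfl⟩))) (by simp; omega)
      have e2 := h1 Γ M B _ _ χ _ _ _ _ _ (by omega) (by simp; omega) (by simp; omega)
        (by simp; omega) (by omega) (by omega) (hKB _ (by omega)) e1 (hp'.mono hmB le_rfl)
      have e3 := hG3 Γ M B _ x χ _ _ _ (by omega) (by simp; omega) (by omega) (by simp; omega)
        (by omega) (hKB _ (by omega)) hχx (by simp only [Fm.Free]; omega) hψx e2
      exact e3.mono le_rfl (by omega)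
    | succ j ih =>
      intro k hk
      have ih := ih (k + 1) (by omega)
      have wj := hw k (by omega)
      have wj' := hw (k + 1) (by omega)
      have wjm := hwm k (by omega)
      have wjm' := hwm (k + 1) (by omega)
      have s3 := szk j (by omega)
      have e1 : DB Γ B 1 ((Fm.eq 1 (w (k + 1))).imp ((Fm.eq 0 1).imp (.eq 0 (w (k + 1))))) :=
        .log (.repl _ _ _ _ (.eq (.inl rfl) (.inr ⟨rfl, rfl⟩))) (by simp; omega)
      have e2 := h1 Γ M B _ _ χ _ _ _ _ _ (by omega) (by simp; omega) (by simp; omega)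
        (by simp; omega) (by omega) (by omega) (hKB _ (by omega)) e1 ih
      have e3 := hG3 Γ M B _ 0 χ _ _ _ (by omega) (by simp; omega) (by omega) (by simp; omega)
        (by omega) (hKB _ (by omega)) hχ0 (by simp only [Fm.Free]; omega) hψ0 e2
      have e4 : DB Γ B 1 ((Fm.eq 0 (w k)).imp ((Fm.succ 0 1).imp (.succ (w k) 1))) :=
        .log (.repl _ _ _ _ (.succ (.inr ⟨rfl, rfl⟩) (.inl rfl))) (by simp; omega)
      have e5 : DB Γ B 30 ((Fm.succ (w k) 1).imp ((Fm.succ (w k) (w (k + 1))).imp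
          (.eq 1 (w (k + 1))))) := prove_Fs hΓ (by omega)
      have e6 := h3 Γ M B _ _ _ _ χ _ _ _ _ _ _ _ (by omega) (by simp; omega) (by simp; omega)
        (by simp; omega) (by simp; omega) (by simp; omega) (by omega) (by simp; omega)
        (hKB _ (by omega)) e4 e5 ((DB.of_proves (hs k (by omega))).mono hmB le_rfl) e3
      have e7 := hG3 Γ M B _ 1 χ _ _ _ (by omega) (by simp; omega) (by omega) (by simp; omega)
        (by omega) (hKB _ (by omega)) hχ1 (by simp only [Fm.Free]; omega) hψ1 e6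
      rw [fk_succ]
      refine e7.mono le_rfl ?_
      have : (j + 1 + 1) * (m + 3 * K) = (j + 1) * (m + 3 * K) + (m + 3 * K) := by ring
      rw [this]
      omega
  -- the end
  have k0 := key n 0 (by omega)
  have w0 := hw 0 (by omega)
  have w0m := hwm 0 (by omega)
  have s3 := szk n le_rfl
  have f1 : DB Γ B 30 ((Fm.zero 0).imp ((Fm.zero (w 0)).imp (.eq 0 (w 0)))) :=
    prove_Gz hΓ (by omega)
  have f2 := h4 Γ M B _ _ _ χ _ _ _ _ _ (by omega) (by simp; omega) (by simp; omega)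
    (by simp; omega) (by omega) (by omega) (hKB _ (by omega)) f1
    ((DB.of_proves hz).mono hmB le_rfl) k0
  have f3 := hG2 Γ M B _ 0 χ _ _ (by omega) (by omega) (by simp; omega)
    (by omega) (hKB _ (by omega)) hχ0 hψ0 f2
  have f4 : DB Γ B ((n + 1) * (m + 3 * K) + m + 3 * K) (χ.imp (ψ.imp (inst x n φ))) :=
    f3.mono le_rfl (by omega)
  refine f4.proves' ?_
  rw [hBB, hM]
  exact bnd K n m

end Pool.Agent.T9h21.IO
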