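import Pool.Agent.T9h21.IO.DB

/-!
# Rules
-/

set_option autoImplicit false

namespace Pool.Agent.T9h21.IO

open Pool.Agent.TH672 (Fm Str upd num digits varStr LogK ReplK Sw Pv)
open Pool.Agent.TH672.Form (ren)
open Pool.Agent.TH636.BC
open Pool.Agent.T9h6.BC
open Pool.Agent.T9h88.IO (pb)
open Pool.Agent.TH690.J100 (subst_of_not_free freeFor_of_bd)

/-- `χ → (a → b)`, `χ → (b → c)` give `χ → (a → c)` -/
theorem rA : ∃ C, ∀ (Γ : List Fml) (M B L1 L2 : ℕ) (χ a b c : Fml), sz χ ≤ M → sz a ≤ M →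
    sz b ≤ M → sz c ≤ M → C * (M + 1) ≤ B → DB Γ B L1 (χ.imp (a.imp b)) →
    DB Γ B L2 (χ.imp (b.imp c)) → DB Γ B (L1 + L2 + C) (χ.imp (a.imp c)) := by
  obtain ⟨C, hC⟩ := taut (.imp (.imp (pp 0) (.imp (pp 1) (pp 2)))
    (.imp (.imp (pp 0) (.imp (pp 2) (pp 3))) (.imp (pp 0) (.imp (pp 1) (pp 3)))))
    (by intro S v; simp only [Fm.sat_imp]; tauto)
  refine ⟨C + 2, fun Γ M B L1 L2 χ a b c s0 s1 s2 s3 hB h1 h2 => ?_⟩
  have h : DB Γ B C (.imp (.imp χ (.imp a b)) (.imp (.imp χ (.imp b c)) (.imp χ (.imp a c)))) :=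
    hC Γ M B [χ, a, b, c] (by simp [*]) ((sz_pos χ).trans s0) (by nlinarith)
  exact ((h.mp h1).mp h2).mono le_rfl (by omega)

/-- `a → (z → b)`, `χ → z` give `χ → (a → b)` -/
theorem rB : ∃ C, ∀ (Γ : List Fml) (M B L1 L2 : ℕ) (χ a z b : Fml), sz χ ≤ M → sz a ≤ M →
    sz z ≤ M → sz b ≤ M → C * (M + 1) ≤ B → DB Γ B L1 (a.imp (z.imp b)) →
    DB Γ B L2 (χ.imp z) → DB Γ B (L1 + L2 + C) (χ.imp (a.imp b)) := by
  obtain ⟨C, hC⟩ := taut (.imp (.imp (pp 1) (.imp (pp 2) (pp 3)))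
    (.imp (.imp (pp 0) (pp 2)) (.imp (pp 0) (.imp (pp 1) (pp 3)))))
    (by intro S v; simp only [Fm.sat_imp]; tauto)
  refine ⟨C + 2, fun Γ M B L1 L2 χ a z b s0 s1 s2 s3 hB h1 h2 => ?_⟩
  have h : DB Γ B C (.imp (.imp a (.imp z b)) (.imp (.imp χ z) (.imp χ (.imp a b)))) :=
    hC Γ M B [χ, a, z, b] (by simp [*]) ((sz_pos χ).trans s0) (by nlinarith)
  exact ((h.mp h1).mp h2).mono le_rfl (by omega)

/-- `a → (e → b)`, `e` give `χ → (a → b)` -/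
theorem rC : ∃ C, ∀ (Γ : List Fml) (M B L1 L2 : ℕ) (χ a e b : Fml), sz χ ≤ M → sz a ≤ M →
    sz e ≤ M → sz b ≤ M → C * (M + 1) ≤ B → DB Γ B L1 (a.imp (e.imp b)) →
    DB Γ B L2 e → DB Γ B (L1 + L2 + C) (χ.imp (a.imp b)) := by
  obtain ⟨C, hC⟩ := taut (.imp (.imp (pp 1) (.imp (pp 2) (pp 3)))
    (.imp (pp 2) (.imp (pp 0) (.imp (pp 1) (pp 3)))))
    (by intro S v; simp only [Fm.sat_imp]; tauto)
  refine ⟨C + 2, fun Γ M B L1 L2 χ a e b s0 s1 s2 s3 hB h1 h2 => ?_⟩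
  have h : DB Γ B C (.imp (.imp a (.imp e b)) (.imp e (.imp χ (.imp a b)))) :=
    hC Γ M B [χ, a, e, b] (by simp [*]) ((sz_pos χ).trans s0) (by nlinarith)
  exact ((h.mp h1).mp h2).mono le_rfl (by omega)

/-- `χ → (J → (e → a))`, `χ → (e → (a → b))` give `χ → (J → (e → b))` -/
theorem rD : ∃ C, ∀ (Γ : List Fml) (M B L1 L2 : ℕ) (χ J e a b : Fml), sz χ ≤ M → sz J ≤ M →
    sz e ≤ M → sz a ≤ M → sz b ≤ M → C * (M + 1) ≤ B → DB Γ B L1 (χ.imp (J.imp (e.imp a))) →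
    DB Γ B L2 (χ.imp (e.imp (a.imp b))) → DB Γ B (L1 + L2 + C) (χ.imp (J.imp (e.imp b))) := by
  obtain ⟨C, hC⟩ := taut (.imp (.imp (pp 0) (.imp (pp 1) (.imp (pp 2) (pp 3))))
    (.imp (.imp (pp 0) (.imp (pp 2) (.imp (pp 3) (pp 4))))
      (.imp (pp 0) (.imp (pp 1) (.imp (pp 2) (pp 4))))))
    (by intro S v; simp only [Fm.sat_imp]; tauto)
  refine ⟨C + 2, fun Γ M B L1 L2 χ J e a b s0 s1 s2 s3 s4 hB h1 h2 => ?_⟩
  have h : DB Γ B C (.imp (.imp χ (.imp J (.imp e a))) (.imp (.imp χ (.imp e (.imp a b)))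
      (.imp χ (.imp J (.imp e b))))) :=
    hC Γ M B [χ, J, e, a, b] (by simp [*]) ((sz_pos χ).trans s0) (by nlinarith)
  exact ((h.mp h1).mp h2).mono le_rfl (by omega)

/-- `χ → (J → u)`, `u → (e → v)`, `e` give `χ → (J → v)` -/
theorem rE : ∃ C, ∀ (Γ : List Fml) (M B L1 L2 L3 : ℕ) (χ J u e v : Fml), sz χ ≤ M → sz J ≤ M →
    sz u ≤ M → sz e ≤ M → sz v ≤ M → C * (M + 1) ≤ B → DB Γ B L1 (χ.imp (J.imp u)) →
    DB Γ B L2 (u.imp (e.imp v)) → DB Γ B L3 e →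
    DB Γ B (L1 + L2 + L3 + C) (χ.imp (J.imp v)) := by
  obtain ⟨C, hC⟩ := taut (.imp (.imp (pp 0) (.imp (pp 1) (pp 2)))
    (.imp (.imp (pp 2) (.imp (pp 3) (pp 4))) (.imp (pp 3)
      (.imp (pp 0) (.imp (pp 1) (pp 4))))))
    (by intro S v; simp only [Fm.sat_imp]; tauto)
  refine ⟨C + 3, fun Γ M B L1 L2 L3 χ J u e v s0 s1 s2 s3 s4 hB h1 h2 h3 => ?_⟩
  have h : DB Γ B C (.imp (.imp χ (.imp J u)) (.imp (.imp u (.imp e v)) (.imp e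
      (.imp χ (.imp J v))))) :=
    hC Γ M B [χ, J, u, e, v] (by simp [*]) ((sz_pos χ).trans s0) (by nlinarith)
  exact (((h.mp h1).mp h2).mp h3).mono le_rfl (by omega)

/-- `χ → (J → u)`, `u → v` give `χ → (J → v)` -/
theorem rE' : ∃ C, ∀ (Γ : List Fml) (M B L1 L2 : ℕ) (χ J u v : Fml), sz χ ≤ M → sz J ≤ M →
    sz u ≤ M → sz v ≤ M → C * (M + 1) ≤ B → DB Γ B L1 (χ.imp (J.imp u)) →
    DB Γ B L2 (u.imp v) → DB Γ B (L1 + L2 + C) (χ.imp (J.imp v)) := by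
  obtain ⟨C, hC⟩ := taut (.imp (.imp (pp 0) (.imp (pp 1) (pp 2)))
    (.imp (.imp (pp 2) (pp 3)) (.imp (pp 0) (.imp (pp 1) (pp 3)))))
    (by intro S v; simp only [Fm.sat_imp]; tauto)
  refine ⟨C + 2, fun Γ M B L1 L2 χ J u v s0 s1 s2 s3 hB h1 h2 => ?_⟩
  have h : DB Γ B C (.imp (.imp χ (.imp J u)) (.imp (.imp u v) (.imp χ (.imp J v)))) :=
    hC Γ M B [χ, J, u, v] (by simp [*]) ((sz_pos χ).trans s0) (by nlinarith)
  exact ((h.mp h1).mp h2).mono le_rfl (by omega)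

/-- `r → (s → e)`, `χ → (e → (ψ → a))` give `χ → (r → (ψ → (s → a)))` -/
theorem rF1 : ∃ C, ∀ (Γ : List Fml) (M B L1 L2 : ℕ) (χ r s e ψ a : Fml), sz χ ≤ M → sz r ≤ M →
    sz s ≤ M → sz e ≤ M → sz ψ ≤ M → sz a ≤ M → C * (M + 1) ≤ B →
    DB Γ B L1 (r.imp (s.imp e)) → DB Γ B L2 (χ.imp (e.imp (ψ.imp a))) →
    DB Γ B (L1 + L2 + C) (χ.imp (r.imp (ψ.imp (s.imp a)))) := by
  obtain ⟨C, hC⟩ := taut (.imp (.imp (pp 1) (.imp (pp 2) (pp 3)))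
    (.imp (.imp (pp 0) (.imp (pp 3) (.imp (pp 4) (pp 5))))
      (.imp (pp 0) (.imp (pp 1) (.imp (pp 4) (.imp (pp 2) (pp 5)))))))
    (by intro S v; simp only [Fm.sat_imp]; tauto)
  refine ⟨C + 2, fun Γ M B L1 L2 χ r s e ψ a s0 s1 s2 s3 s4 s5 hB h1 h2 => ?_⟩
  have h : DB Γ B C (.imp (.imp r (.imp s e)) (.imp (.imp χ (.imp e (.imp ψ a)))
      (.imp χ (.imp r (.imp ψ (.imp s a)))))) :=
    hC Γ M B [χ, r, s, e, ψ, a] (by simp [*]) ((sz_pos χ).trans s0) (by nlinarith)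
  exact ((h.mp h1).mp h2).mono le_rfl (by omega)

/-- `r → (s → s')`, `s' → (t → e)`, `χ → t`, `χ → (e → (ψ → a))` give
`χ → (r → (ψ → (s → a)))` -/
theorem rF3 : ∃ C, ∀ (Γ : List Fml) (M B L1 L2 L3 L4 : ℕ) (χ r s s' t e ψ a : Fml), sz χ ≤ M →
    sz r ≤ M → sz s ≤ M → sz s' ≤ M → sz t ≤ M → sz e ≤ M → sz ψ ≤ M → sz a ≤ M →
    C * (M + 1) ≤ B → DB Γ B L1 (r.imp (s.imp s')) → DB Γ B L2 (s'.imp (t.imp e)) →
    DB Γ B L3 (χ.imp t) → DB Γ B L4 (χ.imp (e.imp (ψ.imp a))) →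
    DB Γ B (L1 + L2 + L3 + L4 + C) (χ.imp (r.imp (ψ.imp (s.imp a)))) := by
  obtain ⟨C, hC⟩ := taut (.imp (.imp (pp 1) (.imp (pp 2) (pp 3)))
    (.imp (.imp (pp 3) (.imp (pp 4) (pp 5))) (.imp (.imp (pp 0) (pp 4))
    (.imp (.imp (pp 0) (.imp (pp 5) (.imp (pp 6) (pp 7))))
      (.imp (pp 0) (.imp (pp 1) (.imp (pp 6) (.imp (pp 2) (pp 7)))))))))
    (by intro S v; simp only [Fm.sat_imp]; tauto)
  refine ⟨C + 4, fun Γ M B L1 L2 L3 L4 χ r s s' t e ψ a s0 s1 s2 s3 s4 s5 s6 s7 hB h1 h2 h3 h4 =>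
    ?_⟩
  have h : DB Γ B C (.imp (.imp r (.imp s s')) (.imp (.imp s' (.imp t e)) (.imp (.imp χ t)
      (.imp (.imp χ (.imp e (.imp ψ a))) (.imp χ (.imp r (.imp ψ (.imp s a)))))))) :=
    hC Γ M B [χ, r, s, s', t, e, ψ, a] (by simp [*]) ((sz_pos χ).trans s0) (by nlinarith)
  exact ((((h.mp h1).mp h2).mp h3).mp h4).mono le_rfl (by omega)

/-- `s → (t → e)`, `χ → t`, `χ → (e → (ψ → a))` give `χ → (ψ → (s → a))` -/
theorem rF4 : ∃ C, ∀ (Γ : List Fml) (M B L1 L2 L3 : ℕ) (χ s t e ψ a : Fml), sz χ ≤ M →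
    sz s ≤ M → sz t ≤ M → sz e ≤ M → sz ψ ≤ M → sz a ≤ M →
    C * (M + 1) ≤ B → DB Γ B L1 (s.imp (t.imp e)) →
    DB Γ B L2 (χ.imp t) → DB Γ B L3 (χ.imp (e.imp (ψ.imp a))) →
    DB Γ B (L1 + L2 + L3 + C) (χ.imp (ψ.imp (s.imp a))) := by
  obtain ⟨C, hC⟩ := taut (.imp (.imp (pp 1) (.imp (pp 2) (pp 3)))
    (.imp (.imp (pp 0) (pp 2)) (.imp (.imp (pp 0) (.imp (pp 3) (.imp (pp 4) (pp 5))))
      (.imp (pp 0) (.imp (pp 4) (.imp (pp 1) (pp 5)))))))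
    (by intro S v; simp only [Fm.sat_imp]; tauto)
  refine ⟨C + 3, fun Γ M B L1 L2 L3 χ s t e ψ a s0 s1 s2 s3 s4 s5 hB h1 h2 h3 => ?_⟩
  have h : DB Γ B C (.imp (.imp s (.imp t e)) (.imp (.imp χ t)
      (.imp (.imp χ (.imp e (.imp ψ a))) (.imp χ (.imp ψ (.imp s a)))))) :=
    hC Γ M B [χ, s, t, e, ψ, a] (by simp [*]) ((sz_pos χ).trans s0) (by nlinarith)
  exact (((h.mp h1).mp h2).mp h3).mono le_rfl (by omega)

/-- generalization under two premises -/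
theorem rG2 : ∃ C, ∀ (Γ : List Fml) (M B L x : ℕ) (χ J a : Fml), sz χ ≤ M → sz J ≤ M →
    sz a ≤ M → x ≤ M → C * (M + 1) ≤ B → ¬ χ.Free x → ¬ J.Free x →
    DB Γ B L (χ.imp (J.imp a)) → DB Γ B (L + C) (χ.imp (J.imp (.all x a))) := by
  obtain ⟨C, hC⟩ := taut (.imp (.imp (pp 0) (.imp (pp 1) (pp 2)))
    (.imp (.and (pp 0) (pp 1)) (pp 2)))
    (by intro S v; simp only [Fm.sat_imp, Fm.sat_and]; tauto)
  obtain ⟨D, hD⟩ := taut (.imp (.imp (.and (pp 0) (pp 1)) (pp 2))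
    (.imp (pp 0) (.imp (pp 1) (pp 2))))
    (by intro S v; simp only [Fm.sat_imp, Fm.sat_and]; tauto)
  refine ⟨C + 11 * D + 100, fun Γ M B L x χ J a s0 s1 s2 s3 hB hx hJ h1 => ?_⟩
  have h4 : 4 ≤ M := (sz_pos χ).trans s0
  have h : DB Γ B C (.imp (.imp χ (.imp J a)) (.imp (.and χ J) a)) :=
    hC Γ M B [χ, J, a] (by simp [*]) h4 (by nlinarith)
  have hd : DB Γ B D (.imp (.imp (.and χ J) (.all x a)) (.imp χ (.imp J (.all x a)))) :=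
    hD Γ (3 * M + 10) B [χ, J, .all x a] (by simp; omega) (by omega) (by nlinarith)
  have hs : (C + 11 * D + 100) * (M + 1) ≥ 100 * (M + 1) := by nlinarith
  have e1 := (h.mp h1).gen x (by simp; omega)
  have e2 : DB Γ B 1 (.imp (.all x (.imp (.and χ J) a)) (.imp (.and χ J) (.all x a))) :=
    .log (.dist x _ _ (by simp only [Fm.and, Fm.neg, Fm.Free]; tauto)) (by simp; omega)
  exact (hd.mp (e2.mp e1)).mono le_rfl (by omega)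

/-- generalization under three premises -/
theorem rG3 : ∃ C, ∀ (Γ : List Fml) (M B L x : ℕ) (χ J K a : Fml), sz χ ≤ M → sz J ≤ M →
    sz K ≤ M → sz a ≤ M → x ≤ M → C * (M + 1) ≤ B → ¬ χ.Free x → ¬ J.Free x → ¬ K.Free x →
    DB Γ B L (χ.imp (J.imp (K.imp a))) → DB Γ B (L + C) (χ.imp (J.imp (K.imp (.all x a)))) := by
  obtain ⟨C, hC⟩ := taut (.imp (.imp (pp 0) (.imp (pp 1) (.imp (pp 2) (pp 3))))
    (.imp (.and (pp 0) (.and (pp 1) (pp 2))) (pp 3)))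
    (by intro S v; simp only [Fm.sat_imp, Fm.sat_and]; tauto)
  obtain ⟨D, hD⟩ := taut (.imp (.imp (.and (pp 0) (.and (pp 1) (pp 2))) (pp 3))
    (.imp (pp 0) (.imp (pp 1) (.imp (pp 2) (pp 3)))))
    (by intro S v; simp only [Fm.sat_imp, Fm.sat_and]; tauto)
  refine ⟨C + 11 * D + 200, fun Γ M B L x χ J K a s0 s1 s2 s3 s4 hB hx hJ hK h1 => ?_⟩
  have h4 : 4 ≤ M := (sz_pos χ).trans s0
  have h : DB Γ B C (.imp (.imp χ (.imp J (.imp K a))) (.imp (.and χ (.and J K)) a)) :=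
    hC Γ M B [χ, J, K, a] (by simp [*]) h4 (by nlinarith)
  have hd : DB Γ B D (.imp (.imp (.and χ (.and J K)) (.all x a))
      (.imp χ (.imp J (.imp K (.all x a))))) :=
    hD Γ (3 * M + 10) B [χ, J, K, .all x a] (by simp; omega) (by omega) (by nlinarith)
  have hs : 200 * (M + 1) ≤ B := le_trans (Nat.mul_le_mul_right _ (by omega)) hB
  have e0 : DB Γ B (C + L + 1) (.imp (.and χ (.and J K)) a) := h.mp h1
  have hz : sz (.all x (.imp (.and χ (.and J K)) a)) = 4 + (x + 1) + (4 + (20 + sz χ + (20 + sz J + sz K)) + sz a) := by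
    rw [sz_all, sz_imp, sz_and, sz_and]
  have e1 := e0.gen x (by rw [hz]; clear hC hD h hd h1 e0 hB; omega)
  have e2 : DB Γ B 1 (.imp (.all x (.imp (.and χ (.and J K)) a))
      (.imp (.and χ (.and J K)) (.all x a))) :=
    .log (.dist x _ _ (by simp only [Fm.and, Fm.neg, Fm.Free]; tauto))
      (by
      rw [sz_imp, hz, sz_imp, sz_and, sz_and, sz_all]; clear hC hD h hd h1 e0 e1 hB; omega)
  exact (hd.mp (e2.mp e1)).mono le_rfl (by omega)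

/-- substitution in a theorem -/
theorem DB.rn {Γ : List Fml} {B L : ℕ} {φ : Fml} (x y : ℕ) (h : DB Γ B L φ)
    (hf : φ.FreeFor y x) (hs : sz (.imp (.all x φ) (φ.subst x y)) ≤ B) :
    DB Γ B (L + 3) (φ.subst x y) := by
  have h1 := h.gen x (by simp at hs ⊢; omega)
  exact ((DB.log (.inst x y φ hf) hs).mp h1).mono le_rfl (by omega)

end Pool.Agent.T9h21.IO
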